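import Mathlib

set_option autoImplicit false

open Filter Topology ENNReal

namespace Pool.Agent.Results.MP_a6d20f_an.NoAcceleration

/-- the class `F¹_{μ,L}` of scalar `L`-smooth `μ`-strongly convex functions -/
def Cls (μ L : ℝ) (f : ℝ → ℝ) : Prop :=
  Differentiable ℝ f ∧ ∀ x y : ℝ, x ≠ y →
    μ ≤ (deriv f x - deriv f y) / (x - y) ∧ (deriv f x - deriv f y) / (x - y) ≤ L

/-- heavy-ball iterates with step size `γ` and momentum `β` -/
noncomputable def hb (γ β : ℝ) (f : ℝ → ℝ) (x0 x1 : ℝ) : ℕ → ℝ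
  | 0 => x0
  | 1 => x1
  | (t + 2) => (1 + β) * hb γ β f x0 x1 (t + 1) - β * hb γ β f x0 x1 t -
      γ * deriv f (hb γ β f x0 x1 (t + 1))

/-- worst-case asymptotic rate of the heavy-ball method over `F¹_{μ,L}` -/
noncomputable def rate (μ L γ β : ℝ) : ℝ≥0∞ :=
  ⨆ (f : ℝ → ℝ) (_ : Cls μ L f) (xs : ℝ) (_ : ∀ y, f xs ≤ f y) (x0 : ℝ) (x1 : ℝ),
    limsup (fun t : ℕ => ENNReal.ofReal |hb γ β f x0 x1 t - xs| ^ (1 / (t : ℝ))) atTop

/-- the tuning `(γ, β)` accelerates over the scalar class -/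
def Accelerates (γ β : ℝ → ℝ → ℝ) : Prop :=
  ∃ c : ℝ, 0 < c ∧ ∃ κ₀ : ℝ, 0 < κ₀ ∧ κ₀ < 1 ∧ ∀ μ L : ℝ, 0 < μ → μ < L → μ / L ≤ κ₀ →
    rate μ L (γ μ L) (β μ L) + ENNReal.ofReal (c * √(μ / L)) ≤ 1

/-! ### from the limsup to a bound -/

theorem bound_of_limsup (u : ℕ → ℝ) (r r' : ℝ) (hr : 0 ≤ r) (hrr : r < r')
    (h : limsup (fun t : ℕ => ENNReal.ofReal |u t| ^ (1 / (t : ℝ))) atTop ≤ ENNReal.ofReal r) :
    ∀ᶠ t in atTop, |u t| ≤ r' ^ t := by
  have h0 : 0 < r' := lt_of_le_of_lt hr hrr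
  have h1 : limsup (fun t : ℕ => ENNReal.ofReal |u t| ^ (1 / (t : ℝ))) atTop < ENNReal.ofReal r' :=
    h.trans_lt ((ENNReal.ofReal_lt_ofReal_iff h0).2 hrr)
  have h2 := eventually_lt_of_limsup_lt h1
  filter_upwards [h2, eventually_ge_atTop 1] with t ht ht1
  have ht0 : (t : ℝ) ≠ 0 := by
    have : (1 : ℝ) ≤ t := by exact_mod_cast ht1
    linarith
  have h3 : (ENNReal.ofReal |u t| ^ (1 / (t : ℝ))) ^ (t : ℝ) ≤ (ENNReal.ofReal r') ^ (t : ℝ) :=
    ENNReal.rpow_le_rpow ht.le (by positivity)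
  rw [← ENNReal.rpow_mul, one_div_mul_cancel ht0, ENNReal.rpow_one, ENNReal.rpow_natCast, ← ENNReal.ofReal_pow h0.le] at h3
  exact (ENNReal.ofReal_le_ofReal_iff (by positivity)).1 h3

/-! ### quadratics -/

theorem deriv_quad (l : ℝ) : deriv (fun x : ℝ => l / 2 * x ^ 2) = fun x => l * x := by
  funext x
  have : HasDerivAt (fun x : ℝ => l / 2 * x ^ 2) (l / 2 * (2 * x)) x := by
    simpa using (hasDerivAt_pow 2 x).const_mul (l / 2)
  rw [this.deriv]; ring

theorem cls_quad {μ L l : ℝ} (h1 : μ ≤ l) (h2 : l ≤ L) : Cls μ L (fun x => l / 2 * x ^ 2) := by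
  refine ⟨by fun_prop, fun x y hxy => ?_⟩
  rw [deriv_quad]
  have : x - y ≠ 0 := sub_ne_zero.2 hxy
  have h3 : (l * x - l * y) / (x - y) = l := by field_simp
  simp only [h3]
  exact ⟨h1, h2⟩

theorem min_quad {l : ℝ} (h : 0 < l) : ∀ y : ℝ, (fun x : ℝ => l / 2 * x ^ 2) 0 ≤ (fun x : ℝ => l / 2 * x ^ 2) y := by
  intro y
  simp only
  have : 0 ≤ l / 2 * y ^ 2 := by positivity
  simpa using this

/-- all heavy ball iterates over the class decay at rate at most `r` -/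
def Good (μ L γ β r : ℝ) : Prop :=
  ∀ f : ℝ → ℝ, Cls μ L f → ∀ xs : ℝ, (∀ y, f xs ≤ f y) → ∀ x0 x1 : ℝ,
    limsup (fun t : ℕ => ENNReal.ofReal |hb γ β f x0 x1 t - xs| ^ (1 / (t : ℝ))) atTop ≤ ENNReal.ofReal r

theorem quad_bound {μ L γ β r l : ℝ} (hG : Good μ L γ β r) (hr : 0 ≤ r) (hl : 0 < l) (h1 : μ ≤ l) (h2 : l ≤ L)
    (x0 x1 r' : ℝ) (hrr : r < r') : ∀ᶠ t in atTop, |hb γ β (fun x => l / 2 * x ^ 2) x0 x1 t| ≤ r' ^ t := by
  have h := hG _ (cls_quad h1 h2) 0 (min_quad hl) x0 x1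
  simp only [sub_zero] at h
  exact bound_of_limsup _ r r' hr hrr h

theorem hb_quad_rec (γ β l x0 x1 : ℝ) (t : ℕ) : hb γ β (fun x => l / 2 * x ^ 2) x0 x1 (t + 2) =
    (1 + β - γ * l) * hb γ β (fun x => l / 2 * x ^ 2) x0 x1 (t + 1) - β * hb γ β (fun x => l / 2 * x ^ 2) x0 x1 t := by
  rw [hb, deriv_quad]; ring

theorem beta_le {μ L γ β r : ℝ} (hG : Good μ L γ β r) (hr : 0 < r) (hμ : 0 < μ) (hL : μ ≤ L) : β ≤ r ^ 2 := by
  by_contra hβ
  push Not at hβ
  set r' := (r + √β) / 2 with hr'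
  have hβ0 : 0 < β := lt_trans (by positivity) hβ
  have hsq : r < √β := (Real.lt_sqrt hr.le).2 hβ
  have h1 : r < r' := by rw [hr']; linarith
  have h2 : r' < √β := by rw [hr']; linarith
  have h0 : 0 < r' := hr.trans h1
  have h3 : r' ^ 2 < β := (Real.lt_sqrt h0.le).1 h2
  have hu := quad_bound hG hr.le hμ le_rfl hL 1 0 r' h1
  have hv := quad_bound hG hr.le hμ le_rfl hL 0 1 r' h1
  set u := hb γ β (fun x => μ / 2 * x ^ 2) 1 0 with hud
  set v := hb γ β (fun x => μ / 2 * x ^ 2) 0 1 with hvd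
  have hW : ∀ t, u t * v (t + 1) - u (t + 1) * v t = β ^ t := by
    intro t
    induction t with
    | zero => simp [hud, hvd, hb]
    | succ n ih =>
      have e1 : u (n + 2) = (1 + β - γ * μ) * u (n + 1) - β * u n := hb_quad_rec _ _ _ _ _ _
      have e2 : v (n + 2) = (1 + β - γ * μ) * v (n + 1) - β * v n := hb_quad_rec _ _ _ _ _ _
      have e3 : n + 1 + 1 = n + 2 := rfl
      rw [e3, e1, e2, pow_succ, ← ih]
      ring
  have hq : 1 < β / r' ^ 2 := by rw [one_lt_div (by positivity)]; exact h3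
  have hlim := tendsto_pow_atTop_atTop_of_one_lt hq
  have hev := hlim.eventually (eventually_gt_atTop (2 * r'))
  obtain ⟨N1, hN1⟩ := eventually_atTop.1 hu
  obtain ⟨N2, hN2⟩ := eventually_atTop.1 hv
  obtain ⟨N3, hN3⟩ := eventually_atTop.1 hev
  set t := max N1 (max N2 N3) with ht
  have t1 : N1 ≤ t := le_max_left _ _
  have t2 : N2 ≤ t := (le_max_left _ _).trans (le_max_right _ _)
  have t3 : N3 ≤ t := (le_max_right _ _).trans (le_max_right _ _)
  have a1 := hN1 t t1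
  have a2 := hN1 (t + 1) (by omega)
  have a3 := hN2 t t2
  have a4 := hN2 (t + 1) (by omega)
  have a5 := hN3 t t3
  have a6 : β ^ t ≤ 2 * r' * (r' ^ 2) ^ t := by
    rw [← hW t]
    calc u t * v (t + 1) - u (t + 1) * v t ≤ |u t * v (t + 1) - u (t + 1) * v t| := le_abs_self _
      _ ≤ |u t * v (t + 1)| + |u (t + 1) * v t| := abs_sub _ _
      _ = |u t| * |v (t + 1)| + |u (t + 1)| * |v t| := by rw [abs_mul, abs_mul]
      _ ≤ r' ^ t * r' ^ (t + 1) + r' ^ (t + 1) * r' ^ t := by gcongr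
      _ = 2 * r' * (r' ^ 2) ^ t := by ring
  rw [div_pow] at a5
  have a7 : 0 < (r' ^ 2) ^ t := by positivity
  rw [lt_div_iff₀ a7] at a5
  linarith

theorem hb_root (γ β l z : ℝ) (hz : z ^ 2 - (1 + β - γ * l) * z + β = 0) (t : ℕ) :
    hb γ β (fun x => l / 2 * x ^ 2) 1 z t = z ^ t ∧ hb γ β (fun x => l / 2 * x ^ 2) 1 z (t + 1) = z ^ (t + 1) := by
  induction t with
  | zero => simp [hb]
  | succ n ih =>
    refine ⟨ih.2, ?_⟩
    have e3 : n + 1 + 1 = n + 2 := rfl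
    rw [e3, hb_quad_rec, ih.1, ih.2]
    have : z ^ (n + 2) = z ^ n * z ^ 2 := by ring
    rw [this]
    have h2 : z ^ 2 = (1 + β - γ * l) * z - β := by linarith
    rw [h2]; ring

theorem root_le {μ L γ β r l : ℝ} (hG : Good μ L γ β r) (hr : 0 < r) (hl : 0 < l) (h1 : μ ≤ l) (h2 : l ≤ L)
    (z : ℝ) (hz : z ^ 2 - (1 + β - γ * l) * z + β = 0) : |z| ≤ r := by
  by_contra h
  push Not at h
  have h3 := quad_bound hG hr.le hl h1 h2 1 z ((r + |z|) / 2) (by linarith)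
  obtain ⟨N, hN⟩ := eventually_atTop.1 h3
  have h4 := hN (N + 1) (by omega)
  rw [(hb_root γ β l z hz N).2, abs_pow] at h4
  have h5 : ((r + |z|) / 2) ^ (N + 1) < |z| ^ (N + 1) := by
    apply pow_lt_pow_left₀ (by linarith) (by positivity) (by omega)
  linarith

theorem poly_pos {μ L γ β r l : ℝ} (hG : Good μ L γ β r) (hr : 0 < r) (hl : 0 < l) (h1 : μ ≤ l) (h2 : l ≤ L)
    (σ : ℝ) (hσ : σ = 1 ∨ σ = -1) : 0 ≤ (σ * r) ^ 2 - (1 + β - γ * l) * (σ * r) + β := by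
  by_contra h
  push Not at h
  set p := 1 + β - γ * l with hp
  set R := r + |p| + |β| + 1 with hR
  have hσ2 : σ ^ 2 = 1 := by rcases hσ with h | h <;> rw [h] <;> norm_num
  have hσa : |σ| = 1 := by rcases hσ with h | h <;> rw [h] <;> norm_num
  have hcont : ContinuousOn (fun x : ℝ => (σ * x) ^ 2 - p * (σ * x) + β) (Set.Icc r R) := by fun_prop
  have hrR : r ≤ R := by rw [hR]; have := abs_nonneg p; have := abs_nonneg β; linarith
  have hRv : 0 ≤ (σ * R) ^ 2 - p * (σ * R) + β := by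
    have e1 : (σ * R) ^ 2 = R ^ 2 := by rw [mul_pow, hσ2, one_mul]
    have e2 : p * (σ * R) ≤ |p| * R := by
      calc p * (σ * R) ≤ |p * (σ * R)| := le_abs_self _
        _ = |p| * R := by rw [abs_mul, abs_mul, hσa, one_mul, abs_of_pos (show 0 < R by linarith)]
    rw [e1]
    have e3 := neg_abs_le β
    have e4 := abs_nonneg p
    have e5 := abs_nonneg β
    have e6 : R ^ 2 - |p| * R = R * (r + |β| + 1) := by rw [hR]; ring
    have e7 : |β| ≤ R * (r + |β| + 1) := by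
      have : 1 ≤ R := by rw [hR]; linarith
      nlinarith
    linarith
  obtain ⟨y, hy, hy0⟩ := intermediate_value_Icc hrR hcont ⟨h.le, hRv⟩
  simp only at hy0
  have h3 := root_le hG hr hl h1 h2 (σ * y) hy0
  rw [abs_mul, hσa, one_mul, abs_of_pos (lt_of_lt_of_le hr hy.1)] at h3
  have h4 : y = r := le_antisymm h3 hy.1
  rw [h4] at hy0
  linarith

/-! ### interpolation -/

theorem interp (K : ℕ) (X g : ℕ → ℝ) (m M : ℝ) (hM : 0 ≤ M)
    (H : ∀ i < K, ∀ j < K, |(g i - g j) - m * (X i - X j)| ≤ M * |X i - X j|) :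
    ∃ h : ℝ → ℝ, (∀ i < K, h (X i) = g i) ∧ ∀ x y, |(h x - h y) - m * (x - y)| ≤ M * |x - y| := by
  classical
  let inv : ℝ → ℕ := Function.invFunOn X (Set.Iio K)
  have hinv : ∀ i < K, inv (X i) < K ∧ X (inv (X i)) = X i := by
    intro i hi
    have h1 : inv (X i) ∈ Set.Iio K := Function.invFunOn_mem ⟨i, hi, rfl⟩
    have h2 : X (inv (X i)) = X i := Function.invFunOn_eq (s := Set.Iio K) ⟨i, hi, rfl⟩
    exact ⟨h1, h2⟩
  have hg : ∀ i < K, g (inv (X i)) = g i := by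
    intro i hi
    have h1 := H _ (hinv i hi).1 i hi
    rw [(hinv i hi).2, sub_self, abs_zero, mul_zero, mul_zero, sub_zero] at h1
    exact sub_eq_zero.1 (abs_nonpos_iff.1 h1)
  have hL : LipschitzOnWith (Real.toNNReal M) (fun x => g (inv x) - m * x) (X '' Set.Iio K) := by
    refine LipschitzOnWith.of_dist_le_mul ?_
    rintro _ ⟨i, hi, rfl⟩ _ ⟨j, hj, rfl⟩
    rw [Real.dist_eq, Real.dist_eq, Real.coe_toNNReal _ hM, hg i hi, hg j hj]
    have := H i hi j hj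
    calc |g i - m * X i - (g j - m * X j)| = |(g i - g j) - m * (X i - X j)| := by congr 1; ring
      _ ≤ _ := this
  obtain ⟨G, hG, hGe⟩ := hL.extend_real
  refine ⟨fun x => G x + m * x, fun i hi => ?_, fun x y => ?_⟩
  · have := hGe ⟨i, hi, rfl⟩
    simp only at this ⊢
    rw [← this, hg i hi]; ring
  · have := hG.dist_le_mul x y
    rw [Real.dist_eq, Real.dist_eq, Real.coe_toNNReal _ hM] at this
    calc |G x + m * x - (G y + m * y) - m * (x - y)| = |G x - G y| := by congr 1; ring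
      _ ≤ _ := this

theorem exists_fun (κ : ℝ) (hκ : 0 < κ) (h : ℝ → ℝ)
    (H : ∀ x y, |(h x - h y) - (1 + κ) / 2 * (x - y)| ≤ (1 - κ) / 2 * |x - y|) :
    ∃ f : ℝ → ℝ, Cls κ 1 f ∧ deriv f = h ∧ ∃ xs, ∀ y, f xs ≤ f y := by
  have hup : ∀ x y, y ≤ x → κ * (x - y) ≤ h x - h y ∧ h x - h y ≤ x - y := by
    intro x y hxy
    have h1 := H x y
    rw [abs_of_nonneg (sub_nonneg.2 hxy)] at h1
    have h2 := abs_le.1 h1
    constructor <;> nlinarith [h2.1, h2.2]
  have hcont : Continuous h := by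
    have hL : LipschitzWith 1 h := by
      refine LipschitzWith.of_dist_le_mul fun x y => ?_
      rw [Real.dist_eq, Real.dist_eq, NNReal.coe_one, one_mul]
      rcases le_total y x with hxy | hxy
      · have := hup x y hxy
        rw [abs_of_nonneg (sub_nonneg.2 hxy), abs_of_nonneg]
        · exact this.2
        · nlinarith [this.1]
      · have := hup y x hxy
        rw [abs_sub_comm, abs_sub_comm x y, abs_of_nonneg (sub_nonneg.2 hxy), abs_of_nonneg]
        · exact this.2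
        · nlinarith [this.1]
    exact hL.continuous
  let f : ℝ → ℝ := fun x => ∫ t in (0 : ℝ)..x, h t
  have hf : ∀ x, HasDerivAt f (h x) x := fun x => intervalIntegral.integral_hasDerivAt_right
    (hcont.intervalIntegrable _ _) hcont.aestronglyMeasurable.stronglyMeasurableAtFilter hcont.continuousAt
  have hfd : deriv f = h := funext fun x => (hf x).deriv
  refine ⟨f, ⟨fun x => (hf x).differentiableAt, ?_⟩, hfd, ?_⟩
  · intro x y hxy
    rw [hfd]
    rcases lt_or_gt_of_ne hxy with h1 | h1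
    · have := hup y x h1.le
      have h2 : 0 < y - x := sub_pos.2 h1
      have h3 : (h x - h y) / (x - y) = (h y - h x) / (y - x) := by
        rw [← neg_sub (h y), ← neg_sub y x, neg_div_neg_eq]
      rw [h3, le_div_iff₀ h2, div_le_iff₀ h2]
      exact ⟨this.1, by linarith [this.2]⟩
    · have := hup x y h1.le
      have h2 : 0 < x - y := sub_pos.2 h1
      rw [le_div_iff₀ h2, div_le_iff₀ h2]
      exact ⟨this.1, by linarith [this.2]⟩
  · set R := |h 0| / κ with hR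
    have hR0 : 0 ≤ R := by positivity
    have hκR : κ * R = |h 0| := by rw [hR]; field_simp
    have h1 : 0 ≤ h R := by
      have := (hup R 0 hR0).1
      have := neg_abs_le (h 0)
      linarith
    have h2 : h (-R) ≤ 0 := by
      have := (hup 0 (-R) (by linarith)).1
      have := le_abs_self (h 0)
      linarith
    obtain ⟨xs, hxs, hx0⟩ := intermediate_value_Icc (by linarith : -R ≤ R) hcont.continuousOn ⟨h2, h1⟩
    refine ⟨xs, fun y => ?_⟩
    have h3 : f y - f xs = ∫ t in xs..y, h t :=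
      intervalIntegral.integral_interval_sub_left (hcont.intervalIntegrable _ _) (hcont.intervalIntegrable _ _)
    have h4 : 0 ≤ ∫ t in xs..y, h t := by
      rcases le_total xs y with h5 | h5
      · refine intervalIntegral.integral_nonneg h5 fun t ht => ?_
        have := (hup t xs ht.1).1
        nlinarith [ht.1]
      · rw [intervalIntegral.integral_symm]
        have : ∫ t in y..xs, h t ≤ ∫ t in y..xs, (0 : ℝ) := by
          refine intervalIntegral.integral_mono_on h5 (hcont.intervalIntegrable _ _) (by simp) fun t ht => ?_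
          have := (hup xs t ht.2).1
          nlinarith [ht.2]
        simp at this
        linarith
    linarith

/-! ### the cycle -/

/-- the cycle, as a function of a real time -/
noncomputable def Y (K : ℕ) (x : ℝ) : ℝ := Real.cos (2 * Real.pi / K * x + Real.pi / (2 * K))

theorem Y_abs (K : ℕ) (x : ℝ) : |Y K x| ≤ 1 := Real.abs_cos_le_one _

theorem Y_period (K : ℕ) (hK : 0 < K) (x : ℝ) (q : ℕ) : Y K (x + K * q) = Y K x := by
  unfold Y
  have hK' : (K : ℝ) ≠ 0 := by exact_mod_cast hK.ne'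
  have : 2 * Real.pi / K * (x + K * q) + Real.pi / (2 * K) = (2 * Real.pi / K * x + Real.pi / (2 * K)) + q * (2 * Real.pi) := by
    field_simp; ring
  rw [this, Real.cos_add_nat_mul_two_pi]

theorem Y_rec (K : ℕ) (x : ℝ) : Y K (x + 1) + Y K (x - 1) = 2 * Real.cos (2 * Real.pi / K) * Y K x := by
  unfold Y
  have h1 : 2 * Real.pi / K * (x + 1) + Real.pi / (2 * K) = (2 * Real.pi / K * x + Real.pi / (2 * K)) + 2 * Real.pi / K := by ring
  have h2 : 2 * Real.pi / K * (x - 1) + Real.pi / (2 * K) = (2 * Real.pi / K * x + Real.pi / (2 * K)) - 2 * Real.pi / K := by ring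
  rw [h1, h2, Real.cos_add, Real.cos_sub]
  ring

theorem Y_inj (K : ℕ) (hK : 0 < K) (i j : ℕ) (hi : i < K) (hj : j < K) (h : Y K i = Y K j) : i = j := by
  unfold Y at h
  have hK' : (K : ℝ) ≠ 0 := by exact_mod_cast hK.ne'
  have hpi := Real.pi_ne_zero
  obtain ⟨k, hk⟩ := Real.cos_eq_cos_iff.1 h
  rcases hk with hk | hk
  · have h1 : ((4 * j + 1 : ℤ) : ℝ) = ((4 * (k * K) + (4 * i + 1) : ℤ) : ℝ) := by
      push_cast
      field_simp at hk
      nlinarith [hk]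
    have h2 : (4 * j + 1 : ℤ) = 4 * (k * K) + (4 * i + 1) := by exact_mod_cast h1
    have h3 : (j : ℤ) - i = k * K := by linarith
    have h4 : k = 0 := by
      by_contra hk0
      have h5 : (K : ℤ) ≤ |k * K| := by
        rw [abs_mul, Nat.abs_cast]
        have : 1 ≤ |k| := Int.one_le_abs hk0
        nlinarith
      rw [← h3] at h5
      have h6 : |(j : ℤ) - i| < K := by rw [abs_lt]; constructor <;> omega
      omega
    rw [h4, zero_mul] at h3
    omega
  · have h1 : ((4 * j + 1 : ℤ) : ℝ) = ((4 * (k * K) - (4 * i + 1) : ℤ) : ℝ) := by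
      push_cast
      field_simp at hk
      nlinarith [hk]
    have h2 : (4 * j + 1 : ℤ) = 4 * (k * K) - (4 * i + 1) := by exact_mod_cast h1
    exfalso
    generalize (k * K : ℤ) = m at h2
    omega

/-- the slope of the unperturbed cycle -/
noncomputable def sl (K : ℕ) : ℝ := 2 - 2 * Real.cos (2 * Real.pi / K)

theorem sl_pos (K : ℕ) (hK : 2 ≤ K) : 0 < sl K := by
  unfold sl
  have hK' : (2 : ℝ) ≤ K := by exact_mod_cast hK
  have h1 : 0 < 2 * Real.pi / K := by have := Real.pi_pos; positivity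
  have h2 : 2 * Real.pi / K ≤ Real.pi := by
    rw [div_le_iff₀ (by linarith)]
    have := Real.pi_pos
    nlinarith
  have h3 : Real.cos (2 * Real.pi / K) < Real.cos 0 := Real.cos_lt_cos_of_nonneg_of_le_pi le_rfl h2 h1
  rw [Real.cos_zero] at h3
  linarith

theorem sl_le (K : ℕ) (c : ℝ) (hc : 0 < c) (hK : 8 / c ≤ K) : 3 * sl K ≤ 2 * c ^ 2 := by
  unfold sl
  have hK0 : (0 : ℝ) < K := lt_of_lt_of_le (by positivity) hK
  have h1 := Real.one_sub_sq_div_two_le_cos (x := 2 * Real.pi / K)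
  have h2 : 2 * Real.pi / K ≤ 0.79 * c := by
    rw [div_le_iff₀ hK0]
    rw [div_le_iff₀ hc] at hK
    have := Real.pi_lt_d2
    nlinarith
  have h3 : 0 ≤ 2 * Real.pi / K := by have := Real.pi_pos; positivity
  have h4 : (2 * Real.pi / K) ^ 2 ≤ (0.79 * c) ^ 2 := by gcongr
  nlinarith [sq_nonneg c]

theorem gap (K : ℕ) (hK : 0 < K) : ∃ δ : ℝ, 0 < δ ∧ ∀ i < K, ∀ j < K, i ≠ j → δ ≤ |Y K i - Y K j| := by
  classical
  let S : Finset (ℕ × ℕ) := ((Finset.range K) ×ˢ (Finset.range K)).filter fun p => p.1 ≠ p.2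
  have hpos : ∀ p ∈ S, 0 < |Y K p.1 - Y K p.2| := by
    intro p hp
    rw [Finset.mem_filter, Finset.mem_product, Finset.mem_range, Finset.mem_range] at hp
    rw [abs_pos, sub_ne_zero]
    exact fun h => hp.2 (Y_inj K hK _ _ hp.1.1 hp.1.2 h)
  rcases S.eq_empty_or_nonempty with hS | hS
  · refine ⟨1, one_pos, fun i hi j hj hij => ?_⟩
    exfalso
    have : (i, j) ∈ S := by
      rw [Finset.mem_filter, Finset.mem_product, Finset.mem_range, Finset.mem_range]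
      exact ⟨⟨hi, hj⟩, hij⟩
    rw [hS] at this
    simp at this
  · obtain ⟨p, hp, hmin⟩ := S.exists_min_image (fun p => |Y K p.1 - Y K p.2|) hS
    refine ⟨_, hpos p hp, fun i hi j hj hij => ?_⟩
    have : (i, j) ∈ S := by
      rw [Finset.mem_filter, Finset.mem_product, Finset.mem_range, Finset.mem_range]
      exact ⟨⟨hi, hj⟩, hij⟩
    have h9 := hmin (i, j) this
    simp only at h9
    exact h9

/-- gradient values along the cycle -/
noncomputable def gg (K : ℕ) (γ ε : ℝ) (x : ℝ) : ℝ := (sl K * Y K x - ε * (Y K x - Y K (x - 1))) / γ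

theorem gg_period (K : ℕ) (hK : 0 < K) (γ ε x : ℝ) (q : ℕ) : gg K γ ε (x + K * q) = gg K γ ε x := by
  unfold gg
  have h : x + K * q - 1 = (x - 1) + K * q := by ring
  rw [h, Y_period K hK, Y_period K hK]

theorem cycle_fun (K : ℕ) (hK : 2 ≤ K) (γ ε κ δ : ℝ) (hγ : 0 < γ) (hε : 0 ≤ ε) (hκ : 0 < κ) (hδ : 0 < δ)
    (hgap : ∀ i < K, ∀ j < K, i ≠ j → δ ≤ |Y K i - Y K j|)
    (h1 : 8 * ε ≤ sl K * δ) (h2 : 2 * γ * κ ≤ sl K) (h3 : 3 * sl K ≤ 2 * γ) :
    ∃ f : ℝ → ℝ, Cls κ 1 f ∧ (∃ xs, ∀ y, f xs ≤ f y) ∧ ∀ t : ℕ, deriv f (Y K t) = gg K γ ε t := by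
  have hs := sl_pos K hK
  have hκ1 : κ ≤ 1 := by
    by_contra h
    push Not at h
    nlinarith
  obtain ⟨h, hh1, hh2⟩ := interp K (fun i => Y K i) (fun i => gg K γ ε i) ((1 + κ) / 2) ((1 - κ) / 2) (by linarith) (by
    intro i hi j hj
    rcases eq_or_ne i j with hij | hij
    · subst hij; simp
    · have hg := hgap i hi j hj hij
      set D := Y K i - Y K j with hD
      set E := (Y K i - Y K (i - 1)) - (Y K j - Y K (j - 1)) with hE
      have hE4 : |E| ≤ 4 := by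
        have a1 := abs_le.1 (Y_abs K i)
        have a2 := abs_le.1 (Y_abs K (i - 1))
        have a3 := abs_le.1 (Y_abs K j)
        have a4 := abs_le.1 (Y_abs K (j - 1))
        rw [hE, abs_le]
        constructor <;> linarith [a1.1, a1.2, a2.1, a2.2, a3.1, a3.2, a4.1, a4.2]
      have e1 : gg K γ ε i - gg K γ ε j = sl K / γ * D - ε / γ * E := by
        unfold gg; rw [hD, hE]; ring
      have e2 : |ε / γ * E| ≤ sl K / (2 * γ) * |D| := by
        rw [abs_mul, abs_of_nonneg (by positivity : 0 ≤ ε / γ)]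
        have : ε * |E| ≤ sl K / 2 * |D| := by
          calc ε * |E| ≤ ε * 4 := by gcongr
            _ ≤ sl K / 2 * δ := by linarith
            _ ≤ sl K / 2 * |D| := by gcongr
        calc ε / γ * |E| = (ε * |E|) / γ := by ring
          _ ≤ (sl K / 2 * |D|) / γ := by gcongr
          _ = sl K / (2 * γ) * |D| := by field_simp
      have e3 : gg K γ ε i - gg K γ ε j - (1 + κ) / 2 * D = (sl K / γ - (1 + κ) / 2) * D - ε / γ * E := by
        rw [e1]; ring
      change |gg K γ ε i - gg K γ ε j - (1 + κ) / 2 * D| ≤ (1 - κ) / 2 * |D|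
      rw [e3]
      refine (abs_sub _ _).trans ?_
      rw [abs_mul]
      have e4 : |sl K / γ - (1 + κ) / 2| + sl K / (2 * γ) ≤ (1 - κ) / 2 := by
        have f1 : sl K / γ = 2 * (sl K / (2 * γ)) := by field_simp
        have f2 : κ ≤ sl K / (2 * γ) := by rw [le_div_iff₀ (by positivity)]; linarith
        have f3 : 3 * (sl K / (2 * γ)) ≤ 1 := by
          rw [← mul_div_assoc, div_le_one (by positivity)]; linarith
        rw [f1]
        rcases abs_cases (2 * (sl K / (2 * γ)) - (1 + κ) / 2) with h | h <;> rw [h.1] <;> linarith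
      nlinarith [abs_nonneg D])
  obtain ⟨f, hf1, hf2, hf3⟩ := exists_fun κ hκ h hh2
  refine ⟨f, hf1, hf3, fun t => ?_⟩
  rw [hf2]
  have hK0 : 0 < K := by omega
  have ht : (t : ℝ) = ((t % K : ℕ) : ℝ) + K * ((t / K : ℕ) : ℝ) := by
    have := Nat.mod_add_div t K
    exact_mod_cast this.symm
  rw [ht, Y_period K hK0, gg_period K hK0]
  exact hh1 (t % K) (Nat.mod_lt _ hK0)

theorem hb_cycle (K : ℕ) (γ ε : ℝ) (hγ : 0 < γ) (f : ℝ → ℝ) (hf : ∀ t : ℕ, deriv f (Y K t) = gg K γ ε t) (t : ℕ) :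
    hb γ (1 - ε) f (Y K 0) (Y K 1) t = Y K t ∧ hb γ (1 - ε) f (Y K 0) (Y K 1) (t + 1) = Y K (t + 1) := by
  induction t with
  | zero => simp [hb]
  | succ n ih =>
    refine ⟨by rw [ih.2]; push_cast; rfl, ?_⟩
    have e3 : n + 1 + 1 = n + 2 := rfl
    rw [e3, hb, ih.1, ih.2]
    have h1 := hf (n + 1)
    push_cast at h1 ⊢
    rw [h1]
    unfold gg
    have h2 := Y_rec K (n + 1)
    have h3 : (n : ℝ) + 1 - 1 = n := by ring
    rw [h3] at h2 ⊢
    rw [mul_div_cancel₀ _ hγ.ne']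
    unfold sl
    linarith

theorem no_good (K : ℕ) (hK : 2 ≤ K) (γ ε κ δ r : ℝ) (hγ : 0 < γ) (hε : 0 ≤ ε) (hκ : 0 < κ) (hδ : 0 < δ)
    (hgap : ∀ i < K, ∀ j < K, i ≠ j → δ ≤ |Y K i - Y K j|)
    (h1 : 8 * ε ≤ sl K * δ) (h2 : 2 * γ * κ ≤ sl K) (h3 : 3 * sl K ≤ 2 * γ) (hr0 : 0 ≤ r) (hr : r < 1)
    (hG : Good κ 1 γ (1 - ε) r) : False := by
  obtain ⟨f, hf1, ⟨xs, hxs⟩, hf3⟩ := cycle_fun K hK γ ε κ δ hγ hε hκ hδ hgap h1 h2 h3
  have hlim := hG f hf1 xs hxs (Y K 0) (Y K 1)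
  have hb1 := bound_of_limsup _ r ((r + 1) / 2) hr0 (by linarith) hlim
  have hb2 : ∀ᶠ t : ℕ in atTop, |Y K t - xs| ≤ ((r + 1) / 2) ^ t := by
    filter_upwards [hb1] with t ht
    rw [(hb_cycle K γ ε hγ f hf3 t).1] at ht
    exact ht
  have hz : Tendsto (fun t : ℕ => ((r + 1) / 2) ^ t) atTop (𝓝 0) :=
    tendsto_pow_atTop_nhds_zero_of_lt_one (by linarith) (by linarith)
  have hK0 : 0 < K := by omega
  have key : ∀ i : ℕ, Y K i = xs := by
    intro i
    by_contra hne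
    have hd : 0 < |Y K i - xs| := abs_pos.2 (sub_ne_zero.2 hne)
    have hev := hz.eventually (gt_mem_nhds hd)
    obtain ⟨N1, hN1⟩ := eventually_atTop.1 hb2
    obtain ⟨N2, hN2⟩ := eventually_atTop.1 hev
    have ht1 : N1 ≤ i + K * (N1 + N2) := by nlinarith
    have ht2 : N2 ≤ i + K * (N1 + N2) := by nlinarith
    have a1 := hN1 _ ht1
    have a2 := hN2 _ ht2
    have a3 : ((i + K * (N1 + N2) : ℕ) : ℝ) = (i : ℝ) + K * ((N1 + N2 : ℕ) : ℝ) := by push_cast; ring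
    rw [a3, Y_period K hK0] at a1
    linarith
  have := hgap 0 hK0 1 (by omega) (by norm_num)
  rw [key 0, key 1, sub_self, abs_zero] at this
  linarith

/-! ### the theorem -/

theorem core (c κ₀ : ℝ) (hc : 0 < c) (hκ₀ : 0 < κ₀) : ∃ κ : ℝ, 0 < κ ∧ κ < 1 ∧ κ ≤ κ₀ ∧ c * √κ < 1 ∧
    ∀ γ β : ℝ, 0 < γ → ¬ Good κ 1 γ β (1 - c * √κ) := by
  obtain ⟨K0, hK0⟩ := exists_nat_ge (8 / c)
  set K := K0 + 2 with hKd
  have hK2 : 2 ≤ K := by omega
  have hKc : 8 / c ≤ K := by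
    refine hK0.trans ?_
    rw [hKd]; push_cast; linarith
  have hs := sl_pos K hK2
  have hs2 := sl_le K c hc hKc
  obtain ⟨δ, hδ, hgap⟩ := gap K (by omega)
  -- choose w = √κ small
  set A := c + 4 / c with hA
  have hA0 : 0 < A := by positivity
  obtain ⟨w, hw0, hw⟩ : ∃ w : ℝ, 0 < w ∧ w < 1 ∧ w ≤ κ₀ ∧ c * w < 1 ∧ 8 * (A * w) ≤ sl K * δ ∧ 8 * w ≤ sl K := by
    refine ⟨min (1 / 2) (min κ₀ (min (1 / (2 * c)) (min (sl K * δ / (8 * A)) (sl K / 8)))), ?_, ?_, ?_, ?_, ?_, ?_⟩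
    · refine lt_min (by norm_num) (lt_min hκ₀ (lt_min (by positivity) (lt_min (by positivity) (by positivity))))
    · exact lt_of_le_of_lt (min_le_left _ _) (by norm_num)
    · exact (min_le_right _ _).trans (min_le_left _ _)
    · have : min (1 / 2) (min κ₀ (min (1 / (2 * c)) (min (sl K * δ / (8 * A)) (sl K / 8)))) ≤ 1 / (2 * c) :=
        (min_le_right _ _).trans ((min_le_right _ _).trans (min_le_left _ _))
      calc c * _ ≤ c * (1 / (2 * c)) := by gcongr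
        _ = 1 / 2 := by field_simp
        _ < 1 := by norm_num
    · have : min (1 / 2) (min κ₀ (min (1 / (2 * c)) (min (sl K * δ / (8 * A)) (sl K / 8)))) ≤ sl K * δ / (8 * A) :=
        (min_le_right _ _).trans ((min_le_right _ _).trans ((min_le_right _ _).trans (min_le_left _ _)))
      calc 8 * (A * _) ≤ 8 * (A * (sl K * δ / (8 * A))) := by gcongr
        _ = sl K * δ := by field_simp
    · have : min (1 / 2) (min κ₀ (min (1 / (2 * c)) (min (sl K * δ / (8 * A)) (sl K / 8)))) ≤ sl K / 8 :=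
        (min_le_right _ _).trans ((min_le_right _ _).trans ((min_le_right _ _).trans (min_le_right _ _)))
      linarith
  obtain ⟨hw1, hwκ, hcw, hwA, hws⟩ := hw
  have hsq : √(w ^ 2) = w := Real.sqrt_sq hw0.le
  refine ⟨w ^ 2, by positivity, by nlinarith, by nlinarith, by rw [hsq]; exact hcw, ?_⟩
  rw [hsq]
  intro γ β hγ hG
  set r := 1 - c * w with hr
  have hr0 : 0 < r := by rw [hr]; linarith
  have hcw0 : 0 < c * w := by positivity
  have hr1 : r < 1 := by rw [hr]; linarith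
  have hκ0 : 0 < w ^ 2 := by positivity
  have hκ1 : w ^ 2 ≤ 1 := by nlinarith
  have b1 : β ≤ r ^ 2 := beta_le hG hr0 hκ0 hκ1
  have b2 := poly_pos hG hr0 hκ0 le_rfl hκ1 1 (Or.inl rfl)
  have b3 := poly_pos hG hr0 one_pos hκ1 le_rfl (-1) (Or.inr rfl)
  have c1 : 0 ≤ c * w * (β - r) + γ * w ^ 2 * r := by
    have : (1 * r) ^ 2 - (1 + β - γ * w ^ 2) * (1 * r) + β = (1 - r) * (β - r) + γ * w ^ 2 * r := by ring
    rw [this] at b2
    have h5 : 1 - r = c * w := by rw [hr]; ring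
    rwa [h5] at b2
  have c2 : 0 ≤ c * (β - r) + γ * w * r := by
    have : c * w * (β - r) + γ * w ^ 2 * r = w * (c * (β - r) + γ * w * r) := by ring
    rw [this] at c1
    exact nonneg_of_mul_nonneg_right c1 hw0
  have c3 : c ^ 2 ≤ γ := by
    have h6 : 0 ≤ r * w * (γ - c ^ 2) := by
      have h7 : c * (β - r) ≤ c * (r ^ 2 - r) := by gcongr
      have h8 : c * (r ^ 2 - r) + γ * w * r = r * w * (γ - c ^ 2) := by rw [hr]; ring
      linarith
    have h9 : 0 < r * w := by positivity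
    have := nonneg_of_mul_nonneg_right h6 h9
    linarith
  have c4 : γ ≤ 4 := by
    have h6 : γ * r ≤ r * (1 + r) ^ 2 := by
      have : (-1 * r) ^ 2 - (1 + β - γ * 1) * (-1 * r) + β = (1 + r) * (r + β) - γ * r := by ring
      rw [this] at b3
      have h7 : (1 + r) * (r + β) ≤ (1 + r) * (r + r ^ 2) := by gcongr
      have h8 : (1 + r) * (r + r ^ 2) = r * (1 + r) ^ 2 := by ring
      linarith
    have h9 : γ ≤ (1 + r) ^ 2 := by
      rw [mul_comm] at h6
      exact le_of_mul_le_mul_left h6 hr0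
    nlinarith
  have c5 : 1 - β ≤ A * w := by
    have h6 : γ * w * r ≤ 4 * w := by
      calc γ * w * r ≤ 4 * w * 1 := by gcongr
        _ = 4 * w := by ring
    have h7 : r - β ≤ 4 / c * w := by
      rw [div_mul_eq_mul_div, le_div_iff₀ hc]
      linarith
    rw [hA, hr] at *
    linarith
  have c6 : 0 ≤ 1 - β := by nlinarith
  refine no_good K hK2 γ (1 - β) (w ^ 2) δ r hγ c6 hκ0 hδ hgap ?_ ?_ ?_ hr0.le hr1 ?_
  · calc 8 * (1 - β) ≤ 8 * (A * w) := by gcongr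
      _ ≤ _ := hwA
  · calc 2 * γ * w ^ 2 ≤ 2 * 4 * w ^ 2 := by gcongr
      _ ≤ 8 * w := by nlinarith
      _ ≤ _ := hws
  · linarith
  · have : 1 - (1 - β) = β := by ring
    rw [this]; exact hG

/-- No tuning of the heavy-ball method accelerates over the scalar class (and the quantified negated form). -/
theorem result :
    (¬ ∃ γ β : ℝ → ℝ → ℝ, (∀ μ L, 0 < μ → μ < L → 0 < γ μ L) ∧ Accelerates γ β) ∧
    (∀ γ β : ℝ → ℝ → ℝ, (∀ μ L, 0 < μ → μ < L → 0 < γ μ L) → ∀ c κ₀ : ℝ, 0 < c → 0 < κ₀ →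
      ∃ μ L : ℝ, 0 < μ ∧ μ < L ∧ μ / L ≤ κ₀ ∧ ∃ f : ℝ → ℝ, Cls μ L f ∧ ∃ xs : ℝ, (∀ y, f xs ≤ f y) ∧
        ∃ x0 x1 : ℝ, ENNReal.ofReal (1 - c * √(μ / L)) <
          limsup (fun t : ℕ => ENNReal.ofReal |hb (γ μ L) (β μ L) f x0 x1 t - xs| ^ (1 / (t : ℝ))) atTop) := by
  have h2 : ∀ γ β : ℝ → ℝ → ℝ, (∀ μ L, 0 < μ → μ < L → 0 < γ μ L) → ∀ c κ₀ : ℝ, 0 < c → 0 < κ₀ →
      ∃ μ L : ℝ, 0 < μ ∧ μ < L ∧ μ / L ≤ κ₀ ∧ ∃ f : ℝ → ℝ, Cls μ L f ∧ ∃ xs : ℝ, (∀ y, f xs ≤ f y) ∧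
        ∃ x0 x1 : ℝ, ENNReal.ofReal (1 - c * √(μ / L)) <
          limsup (fun t : ℕ => ENNReal.ofReal |hb (γ μ L) (β μ L) f x0 x1 t - xs| ^ (1 / (t : ℝ))) atTop := by
    intro γ β hγ c κ₀ hc hκ₀
    obtain ⟨κ, hκ0, hκ1, hκκ, -, H⟩ := core c κ₀ hc hκ₀
    by_contra hcon
    push Not at hcon
    refine H (γ κ 1) (β κ 1) (hγ κ 1 hκ0 hκ1) ?_
    intro f hf xs hxs x0 x1
    have := hcon κ 1 hκ0 hκ1 (by rw [div_one]; exact hκκ) f hf xs hxs x0 x1
    rw [div_one] at this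
    exact this
  refine ⟨?_, h2⟩
  rintro ⟨γ, β, hγ, c, hc, κ₀, hκ₀, -, H⟩
  obtain ⟨μ, L, hμ, hL, hκ, f, hf, xs, hxs, x0, x1, hlt⟩ := h2 γ β hγ c κ₀ hc hκ₀
  have h3 := H μ L hμ hL hκ
  have h4 : limsup (fun t : ℕ => ENNReal.ofReal |hb (γ μ L) (β μ L) f x0 x1 t - xs| ^ (1 / (t : ℝ))) atTop ≤ rate μ L (γ μ L) (β μ L) := by
    unfold rate
    refine le_iSup_of_le f (le_iSup_of_le hf (le_iSup_of_le xs (le_iSup_of_le hxs (le_iSup_of_le x0 (le_iSup_of_le x1 le_rfl)))))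
  have h5 : ENNReal.ofReal (1 - c * √(μ / L)) + ENNReal.ofReal (c * √(μ / L)) < 1 :=
    lt_of_lt_of_le (ENNReal.add_lt_add_right ENNReal.ofReal_ne_top (hlt.trans_le h4)) h3
  have h6 : (1 : ℝ≥0∞) ≤ ENNReal.ofReal (1 - c * √(μ / L)) + ENNReal.ofReal (c * √(μ / L)) := by
    rw [← ENNReal.ofReal_one]
    refine le_trans (ENNReal.ofReal_le_ofReal (le_of_eq ?_)) ENNReal.ofReal_add_le
    ring
  exact absurd h5 (not_lt.2 h6)

end Pool.Agent.Results.MP_a6d20f_an.NoAcceleration
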